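import Mathlib
import Pool.Agent.Y377.IL.Stm

/-! (FA): algebraic elements of the extension by a fundamental matrix. -/

set_option autoImplicit false

namespace Pool.Agent.Y379.IL

open Pool.Agent.Y377.EL Pool.Agent.Y377.IL

/-- Zariski's lemma: the algebraic elements of an algebra of finite type -/
theorem fin_alg {L K : Type} [Field L] [Field K] [Algebra L K] (B : Subalgebra L K)
    (hB : B.FG) : ∃ F : Submodule L K, F.FG ∧ ∀ x, x ∈ F ↔ x ∈ B ∧ IsAlgebraic L x := by
  refine ⟨Subalgebra.toSubmodule (B ⊓ Subalgebra.algebraicClosure L K), ?_, fun x => Iff.rfl⟩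
  rw [← Module.Finite.iff_fg]
  obtain ⟨m, hm⟩ := Ideal.exists_maximal B
  have hft : Algebra.FiniteType L B := (Subalgebra.fg_iff_finiteType B).1 hB
  let _ : Field (B ⧸ m) := Ideal.Quotient.field m
  have hft2 : Algebra.FiniteType L (B ⧸ m) :=
    Algebra.FiniteType.of_surjective (Ideal.Quotient.mkₐ L m) (Ideal.Quotient.mkₐ_surjective L m)
  have hfin : Module.Finite L (B ⧸ m) := finite_of_finite_type_of_isJacobsonRing L (B ⧸ m)
  let f : (Subalgebra.toSubmodule (B ⊓ Subalgebra.algebraicClosure L K)) →ₗ[L] (B ⧸ m) :=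
    { toFun := fun x => Ideal.Quotient.mk m ⟨x, x.2.1⟩
      map_add' := fun x y => by
        rw [← map_add]
        rfl
      map_smul' := fun c x => by
        rfl }
  apply Module.Finite.of_injective f
  rw [injective_iff_map_eq_zero]
  rintro ⟨x, hx1, hx2⟩ hx
  by_contra hne
  have hx0 : x ≠ 0 := fun h => hne (Subtype.ext h)
  have h1 : (⟨x, hx1⟩ : B) ∈ m := Ideal.Quotient.eq_zero_iff_mem.1 hx
  have h2 : x⁻¹ ∈ B := B.inv_mem_of_algebraic (x := ⟨x, hx1⟩) hx2
  apply hm.ne_top
  rw [Ideal.eq_top_iff_one]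
  have h3 : (1 : B) = ⟨x⁻¹, h2⟩ * ⟨x, hx1⟩ := Subtype.ext (inv_mul_cancel₀ hx0).symm
  rw [h3]
  exact m.mul_mem_left _ h1

variable {K : Type} [Field K] [Algebra ℂ K]

theorem map_mul_D {n : ℕ} (D : Derivation ℂ K K) (A B : Matrix (Fin n) (Fin n) K) (i j : Fin n) :
    D ((A * B) i j) = ∑ k, (A i k * D (B k j) + B k j * D (A i k)) := by
  rw [Matrix.mul_apply, map_sum]
  apply Finset.sum_congr rfl
  intro k _
  rw [D.leibniz]
  rfl

/-- the derivative of the inverse matrix -/
theorem D_inv {n : ℕ} {D : Derivation ℂ K K} {R : Subalgebra ℂ K}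
    {X Y M : Matrix (Fin n) (Fin n) K} (h : Fund D R X Y M) (i j : Fin n) :
    D (Y i j) = -∑ k, Y i k * M k j := by
  have hYX : Y * X = 1 := mul_eq_one_comm.1 h.inv
  set DY : Matrix (Fin n) (Fin n) K := Matrix.of (fun i j => D (Y i j)) with hDY
  have h1 : DY * X + Y * (M * X) = 0 := by
    ext a b
    have h2 := map_mul_D D Y X a b
    rw [hYX] at h2
    have h3 : D ((1 : Matrix (Fin n) (Fin n) K) a b) = 0 := by
      rw [Matrix.one_apply]
      split_ifs
      · exact D.map_one_eq_zero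
      · exact map_zero D
    rw [h3, Finset.sum_add_distrib] at h2
    rw [Matrix.add_apply, Matrix.mul_apply, Matrix.mul_apply, Matrix.zero_apply]
    have h4 : ∑ k, Y a k * D (X k b) = ∑ k, Y a k * (M * X) k b := by
      apply Finset.sum_congr rfl
      intro k _
      rw [h.eq k b, Matrix.mul_apply]
    have h5 : ∑ k, X k b * D (Y a k) = ∑ k, DY a k * X k b := by
      apply Finset.sum_congr rfl
      intro k _
      rw [mul_comm]
      rfl
    rw [h4, h5] at h2
    rw [add_comm]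
    exact h2.symm
  have h2 : DY + Y * M = 0 := by
    have h3 : (DY + Y * M) * X = 0 := by
      rw [add_mul, mul_assoc]; exact h1
    calc DY + Y * M = (DY + Y * M) * (X * Y) := by rw [h.inv, mul_one]
      _ = ((DY + Y * M) * X) * Y := by rw [mul_assoc]
      _ = 0 := by rw [h3, zero_mul]
  have h3 := congrFun (congrFun h2 i) j
  rw [Matrix.add_apply, Matrix.mul_apply, Matrix.zero_apply] at h3
  exact eq_neg_of_add_eq_zero_left h3

/-- the entries and `1` -/
def ents {n : ℕ} (X Y : Matrix (Fin n) (Fin n) K) : Set K :=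
  {x | x = 1 ∨ ∃ i j, x = X i j ∨ x = Y i j}

omit [Algebra ℂ K] in
theorem ents_finite {n : ℕ} (X Y : Matrix (Fin n) (Fin n) K) : (ents X Y).Finite := by
  have h : ents X Y ⊆ insert 1 (Set.range (pt X Y)) := by
    rintro x (rfl | ⟨i, j, rfl | rfl⟩)
    · exact Set.mem_insert _ _
    · exact Set.mem_insert_of_mem _ ⟨Sum.inl (i, j), rfl⟩
    · exact Set.mem_insert_of_mem _ ⟨Sum.inr (i, j), rfl⟩
  exact ((Set.finite_range _).insert _).subset h

/-- the generating module -/
noncomputable def VV (R : Subalgebra ℂ K) {n : ℕ} (X Y : Matrix (Fin n) (Fin n) K) :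
    Submodule R K := Submodule.span R (ents X Y)

theorem VV_fg (R : Subalgebra ℂ K) {n : ℕ} (X Y : Matrix (Fin n) (Fin n) K) :
    (VV R X Y).FG := Submodule.fg_span (ents_finite X Y)

theorem one_mem_VV (R : Subalgebra ℂ K) {n : ℕ} (X Y : Matrix (Fin n) (Fin n) K) :
    (1 : K) ∈ VV R X Y := Submodule.subset_span (Or.inl rfl)

theorem VV_stab {D : Derivation ℂ K K} {R : Subalgebra ℂ K} (hR : Stab D R) {n : ℕ}
    {X Y M : Matrix (Fin n) (Fin n) K} (h : Fund D R X Y M) : ∀ x ∈ VV R X Y, D x ∈ VV R X Y := by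
  intro x hx
  refine Submodule.span_induction (p := fun x _ => D x ∈ VV R X Y) ?_ ?_ ?_ ?_ hx
  · rintro y (rfl | ⟨i, j, rfl | rfl⟩)
    · rw [D.map_one_eq_zero]
      exact Submodule.zero_mem _
    · rw [h.eq]
      apply Submodule.sum_mem
      intro k _
      exact (VV R X Y).smul_mem (⟨M i k, h.mem i k⟩ : R)
        (Submodule.subset_span (Or.inr ⟨k, j, Or.inl rfl⟩))
    · rw [D_inv h]
      apply Submodule.neg_mem
      apply Submodule.sum_mem
      intro k _
      rw [mul_comm]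
      exact (VV R X Y).smul_mem (⟨M k j, h.mem k j⟩ : R)
        (Submodule.subset_span (Or.inr ⟨i, k, Or.inr rfl⟩))
  · rw [map_zero]
    exact Submodule.zero_mem _
  · intro a b _ _ ha hb
    rw [map_add]
    exact Submodule.add_mem _ ha hb
  · intro c a ha' ha
    have h1 : D (c • a) = c • D a + (⟨D c, hR c c.2⟩ : R) • a := by
      change D ((c : K) * a) = (c : K) * D a + D (c : K) * a
      rw [D.leibniz]
      simp only [smul_eq_mul]
      ring
    rw [h1]
    exact Submodule.add_mem _ (Submodule.smul_mem _ _ ha) (Submodule.smul_mem _ _ ha')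

theorem pow_stab {D : Derivation ℂ K K} {R : Subalgebra ℂ K} (hR : Stab D R) {V : Submodule R K}
    (hV : ∀ x ∈ V, D x ∈ V) (N : ℕ) : ∀ x ∈ V ^ N, D x ∈ V ^ N := by
  induction N with
  | zero =>
    intro x hx
    rw [pow_zero] at hx ⊢
    obtain ⟨r, rfl⟩ := Submodule.mem_one.1 hx
    rw [Submodule.mem_one]
    exact ⟨⟨D r, hR r r.2⟩, rfl⟩
  | succ N ih =>
    intro x hx
    rw [pow_succ] at hx ⊢
    refine Submodule.mul_induction_on hx ?_ ?_
    · intro a ha b hb
      rw [D.leibniz]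
      simp only [smul_eq_mul]
      refine Submodule.add_mem _ (Submodule.mul_mem_mul ha (hV b hb)) ?_
      rw [mul_comm b]
      exact Submodule.mul_mem_mul (ih a ha) hb
    · intro a b ha hb
      rw [map_add]
      exact Submodule.add_mem _ ha hb

theorem pow_mono' {R : Subalgebra ℂ K} {V : Submodule R K} (h1 : (1 : K) ∈ V) {a b : ℕ}
    (hab : a ≤ b) : V ^ a ≤ V ^ b := by
  induction b, hab using Nat.le_induction with
  | base => exact le_rfl
  | succ b _ ih =>
    refine ih.trans ?_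
    intro x hx
    rw [pow_succ, ← mul_one x]
    exact Submodule.mul_mem_mul hx h1

theorem mem_mat_iff {R : Subalgebra ℂ K} {n : ℕ} {X Y : Matrix (Fin n) (Fin n) K} {x : K} :
    x ∈ mat R X Y ↔ ∃ N, x ∈ (VV R X Y) ^ N := by
  constructor
  · let U : Subalgebra ℂ K :=
      { carrier := {x | ∃ N, x ∈ (VV R X Y) ^ N}
        mul_mem' := by
          rintro a b ⟨N, ha⟩ ⟨N', hb⟩
          refine ⟨N + N', ?_⟩
          rw [pow_add]
          exact Submodule.mul_mem_mul ha hb
        add_mem' := by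
          rintro a b ⟨N, ha⟩ ⟨N', hb⟩
          exact ⟨max N N', Submodule.add_mem _ (pow_mono' (one_mem_VV R X Y) (le_max_left _ _) ha)
            (pow_mono' (one_mem_VV R X Y) (le_max_right _ _) hb)⟩
        algebraMap_mem' := by
          intro c
          refine ⟨0, ?_⟩
          rw [pow_zero, Submodule.mem_one]
          exact ⟨⟨algebraMap ℂ K c, R.algebraMap_mem c⟩, rfl⟩ }
    have h : mat R X Y ≤ U := by
      refine sup_le ?_ (Algebra.adjoin_le ?_)
      · intro r hr
        refine ⟨0, ?_⟩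
        rw [pow_zero, Submodule.mem_one]
        exact ⟨⟨r, hr⟩, rfl⟩
      · rintro y ⟨i, j, hy⟩
        refine ⟨1, ?_⟩
        rw [pow_one]
        exact Submodule.subset_span (Or.inr ⟨i, j, hy⟩)
    intro hx
    exact h hx
  · rintro ⟨N, hx⟩
    have hV : ∀ y ∈ VV R X Y, y ∈ mat R X Y := by
      intro y hy
      refine Submodule.span_induction (p := fun x _ => x ∈ mat R X Y) ?_ ?_ ?_ ?_ hy
      · rintro z (rfl | ⟨i, j, hz⟩)
        · exact Subalgebra.one_mem _
        · exact (le_sup_right : _ ≤ mat R X Y) (Algebra.subset_adjoin ⟨i, j, hz⟩)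
      · exact Subalgebra.zero_mem _
      · intro a b _ _ ha hb
        exact Subalgebra.add_mem _ ha hb
      · intro c a _ ha
        exact Subalgebra.mul_mem _ ((le_sup_left : R ≤ mat R X Y) c.2) ha
    revert x
    induction N with
    | zero =>
      intro x hx
      rw [pow_zero] at hx
      obtain ⟨r, rfl⟩ := Submodule.mem_one.1 hx
      exact (le_sup_left : R ≤ mat R X Y) r.2
    | succ N ih =>
      intro x hx
      rw [pow_succ] at hx
      refine Submodule.mul_induction_on hx ?_ ?_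
      · intro a ha b hb
        exact Subalgebra.mul_mem _ (ih ha) (hV b hb)
      · intro a b ha hb
        exact Subalgebra.add_mem _ ha hb

/-- algebraic elements are stable under the derivation -/
theorem alg_stab {D : Derivation ℂ K K} {R : Subalgebra ℂ K} (hR : Stab D R) {x : K}
    (hx : IsAlgebraic R x) : IsAlgebraic R (D x) := by
  obtain ⟨P, hP0, hP, hd, hmin⟩ := exists_min hx
  have hP' : Polynomial.aeval x (Polynomial.derivative P) ≠ 0 := by
    intro h0
    have h1 := hmin _ h0 (fun n hn => Polynomial.coeff_eq_zero_of_natDegree_lt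
      (lt_of_lt_of_le (Polynomial.natDegree_derivative_lt (by omega)) hn))
    have hch : CharZero K := charZero_of_injective_algebraMap (algebraMap ℂ K).injective
    obtain ⟨m, hm⟩ : ∃ m, P.natDegree = m + 1 := ⟨P.natDegree - 1, by omega⟩
    have h2 : (Polynomial.derivative P).coeff m = 0 := by rw [h1, Polynomial.coeff_zero]
    rw [Polynomial.coeff_derivative] at h2
    have h3 := congrArg (fun z : R => (z : K)) h2
    have h4 : (P.coeff (m + 1) : K) * ((m : K) + 1) = 0 := by
      have h5 : ((P.coeff (m + 1) * ((m : R) + 1) : R) : K) =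
        (P.coeff (m + 1) : K) * ((m : K) + 1) := by push_cast; rfl
      rw [← h5]
      exact h3
    have h6 : (P.coeff (m + 1) : K) ≠ 0 := by
      intro h7
      have h8 : P.leadingCoeff = 0 := by
        rw [Polynomial.leadingCoeff, hm]
        exact Subtype.ext h7
      exact hP0 (Polynomial.leadingCoeff_eq_zero.1 h8)
    rcases mul_eq_zero.1 h4 with h7 | h7
    · exact h6 h7
    · exact Nat.cast_add_one_ne_zero m h7
  have h1 := D_aeval D R hR x P
  rw [hP, map_zero] at h1
  have h2 : D x = -(Polynomial.aeval x (dc (dres D R hR) P)) *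
      (Polynomial.aeval x (Polynomial.derivative P))⁻¹ := by
    rw [eq_mul_inv_iff_mul_eq₀ hP']
    linear_combination -h1
  have h3 : ∀ Q : Polynomial R, Polynomial.aeval x Q ∈ algC R := by
    intro Q
    rw [Polynomial.aeval_eq_sum_range]
    refine (algC R).sum_mem fun i _ => ?_
    rw [Algebra.smul_def]
    exact (algC R).mul_mem (alg_of_mem (Q.coeff i).2) ((algC R).pow_mem hx i)
  rw [h2]
  have h5 : (Polynomial.aeval x (Polynomial.derivative P))⁻¹ ∈ algC R := (h3 _).inv
  exact (algC R).mul_mem ((algC R).neg_mem (h3 _)) h5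

theorem t_FA : S_FA := by
  classical
  intro K _ _ D R hR hDS hN n X Y M hF
  -- the modules `T_N`
  let A : Submodule R K := Subalgebra.toSubmodule (Subalgebra.algebraicClosure R K)
  have hA : ∀ x, x ∈ A ↔ IsAlgebraic R x := fun x => Iff.rfl
  set V := VV R X Y with hV
  let T : ℕ → Submodule R K := fun N => V ^ N ⊓ A
  have hTfg : ∀ N, (T N).FG := by
    intro N
    have h1 : IsNoetherian R (V ^ N : Submodule R K) :=
      isNoetherian_of_fg_of_noetherian _ ((VV_fg R X Y).pow N)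
    have h2 : IsNoetherian R (T N) := isNoetherian_of_le (inf_le_left : T N ≤ V ^ N)
    exact Module.Finite.iff_fg.1 inferInstance
  have hTD : ∀ N, ∀ x ∈ T N, D x ∈ T N := by
    intro N x hx
    exact ⟨pow_stab hR (VV_stab hR hF) N x hx.1, alg_stab hR hx.2⟩
  have hTmono : ∀ {a b : ℕ}, a ≤ b → T a ≤ T b := by
    intro a b hab
    exact inf_le_inf_right _ (pow_mono' (one_mem_VV R X Y) hab)
  -- the fraction field
  let L : IntermediateField ℂ K := frac R
  let B : Subalgebra L K := Algebra.adjoin L (ents X Y)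
  have hB : B.FG := by
    refine ⟨(ents_finite X Y).toFinset, ?_⟩
    rw [Set.Finite.coe_toFinset]
  obtain ⟨F, hFfg, hFm⟩ := fin_alg B hB
  have hRL : ∀ r ∈ R, r ∈ L := fun r hr => le_frac R hr
  have hLalg : ∀ x ∈ L.toSubalgebra, IsAlgebraic R x := by
    rintro x ⟨r, hr, hr0, hrx⟩
    have h1 : x = r⁻¹ * (r * x) := by
      rw [← mul_assoc, inv_mul_cancel₀ hr0, one_mul]
    rw [h1]
    exact (alg_of_mem hr).inv.mul (alg_of_mem hrx)
  have halg1 : ∀ x : K, IsAlgebraic L x → IsAlgebraic R x := by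
    intro x hx
    exact alg_trans (S := L.toSubalgebra) hRL hLalg hx
  have halg2 : ∀ x : K, IsAlgebraic R x → IsAlgebraic L x := by
    intro x hx
    exact alg_mono (S := L.toSubalgebra) hRL hx
  -- elements of `B`
  have hBm : ∀ b ∈ B, ∃ r ∈ R, r ≠ 0 ∧ r * b ∈ mat R X Y := by
    intro b hb
    refine Algebra.adjoin_induction (p := fun b _ => ∃ r ∈ R, r ≠ 0 ∧ r * b ∈ mat R X Y)
      ?_ ?_ ?_ ?_ hb
    · rintro x hx
      refine ⟨1, R.one_mem, one_ne_zero, ?_⟩
      rw [one_mul, mem_mat_iff]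
      refine ⟨1, ?_⟩
      rw [pow_one]
      exact Submodule.subset_span hx
    · rintro ⟨l, r, hr, hr0, hrl⟩
      exact ⟨r, hr, hr0, (le_sup_left : R ≤ mat R X Y) hrl⟩
    · rintro x y _ _ ⟨r, hr, hr0, hx⟩ ⟨s, hs, hs0, hy⟩
      refine ⟨r * s, R.mul_mem hr hs, mul_ne_zero hr0 hs0, ?_⟩
      have h1 : r * s * (x + y) = s * (r * x) + r * (s * y) := by ring
      rw [h1]
      exact Subalgebra.add_mem _
        (Subalgebra.mul_mem _ ((le_sup_left : R ≤ mat R X Y) hs) hx)
        (Subalgebra.mul_mem _ ((le_sup_left : R ≤ mat R X Y) hr) hy)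
    · rintro x y _ _ ⟨r, hr, hr0, hx⟩ ⟨s, hs, hs0, hy⟩
      refine ⟨r * s, R.mul_mem hr hs, mul_ne_zero hr0 hs0, ?_⟩
      have h1 : r * s * (x * y) = (r * x) * (s * y) := by ring
      rw [h1]
      exact Subalgebra.mul_mem _ hx hy
  have hMB : ∀ x ∈ mat R X Y, x ∈ B := by
    have h1 : mat R X Y ≤ B.restrictScalars ℂ := by
      refine sup_le ?_ (Algebra.adjoin_le ?_)
      · intro r hr
        exact B.algebraMap_mem (⟨r, hRL r hr⟩ : L)
      · rintro y ⟨i, j, hy⟩
        exact Algebra.subset_adjoin (Or.inr ⟨i, j, hy⟩)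
    exact fun x hx => h1 hx
  -- a bound for the denominators of the generators
  obtain ⟨S, hS⟩ := hFfg
  have hgen : ∀ c ∈ S, ∃ r ∈ R, r ≠ 0 ∧ ∃ N, r * c ∈ T N := by
    intro c hc
    have h1 : c ∈ F := hS ▸ Submodule.subset_span hc
    obtain ⟨h2, h3⟩ := (hFm c).1 h1
    obtain ⟨r, hr, hr0, hrc⟩ := hBm c h2
    obtain ⟨N, hN⟩ := mem_mat_iff.1 hrc
    exact ⟨r, hr, hr0, N, hN, (alg_of_mem hr).mul (halg1 c h3)⟩
  choose! ρ hρ1 hρ2 ν hν using hgen
  set N0 := S.sup ν with hN0
  have hspan : ∀ x ∈ F, ∃ r ∈ R, r ≠ 0 ∧ r * x ∈ T N0 := by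
    intro x hx
    rw [← hS] at hx
    refine Submodule.span_induction (p := fun x _ => ∃ r ∈ R, r ≠ 0 ∧ r * x ∈ T N0) ?_ ?_ ?_ ?_ hx
    · intro c hc
      exact ⟨ρ c, hρ1 c hc, hρ2 c hc, hTmono (Finset.le_sup hc) (hν c hc)⟩
    · refine ⟨1, R.one_mem, one_ne_zero, ?_⟩
      rw [mul_zero]
      exact Submodule.zero_mem _
    · rintro x y _ _ ⟨r, hr, hr0, hx⟩ ⟨s, hs, hs0, hy⟩
      refine ⟨r * s, R.mul_mem hr hs, mul_ne_zero hr0 hs0, ?_⟩
      have h1 : r * s * (x + y) = s * (r * x) + r * (s * y) := by ring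
      rw [h1]
      exact Submodule.add_mem _ ((T N0).smul_mem (⟨s, hs⟩ : R) hx)
        ((T N0).smul_mem (⟨r, hr⟩ : R) hy)
    · rintro ⟨l, s, hs, hs0, hsl⟩ x _ ⟨r, hr, hr0, hx⟩
      refine ⟨s * r, R.mul_mem hs hr, mul_ne_zero hs0 hr0, ?_⟩
      have h1 : s * r * ((⟨l, s, hs, hs0, hsl⟩ : L) • x) = (s * l) * (r * x) := by
        change s * r * (l * x) = _
        ring
      rw [h1]
      exact (T N0).smul_mem (⟨s * l, hsl⟩ : R) hx
  have hle : ∀ N, T N ≤ T N0 := by
    intro N
    refine hDS.le (hTD N) (hTD N0) (hTfg N) ?_ hR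
    intro x hx
    apply hspan
    rw [hFm]
    exact ⟨hMB x (mem_mat_iff.2 ⟨N, hx.1⟩), halg2 x hx.2⟩
  refine ⟨T N0, hTfg N0, ?_⟩
  intro x
  constructor
  · intro hx
    exact ⟨mem_mat_iff.2 ⟨N0, hx.1⟩, hx.2⟩
  · rintro ⟨hx1, hx2⟩
    obtain ⟨N, hN⟩ := mem_mat_iff.1 hx1
    exact hle N ⟨hN, hx2⟩

end Pool.Agent.Y379.IL
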